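import Pool.Agent.Helper36_X1.Stmts2

/-!
Module FRX of squad X1: the sum of the elements of `U` for representations of the whole group.
-/

open scoped BigOperators

noncomputable section

namespace Pool.Agent.PP.X1.H31

open Pool.Agent.Helper51_AWC Pool.Agent.Helper79_WRA Pool.Agent.PP

/-- FRX -/
theorem frx (lb6 : Lb6Stmt) (bru : BruhStmt) : FrxStmt := by
  intro ℓ _ F _ hF G _ _ R k ρ hρ hsz
  have htop : R.PJ Finset.univ = ⊤ := (bru ℓ G R).2.2.1
  have hmem : ∀ g : G, g ∈ R.PJ Finset.univ := fun g => by rw [htop]; exact Subgroup.mem_top g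
  have hro : ∀ g : G, ro (ρ.comp (R.PJ Finset.univ).subtype) g = ρ g := fun g => by
    rw [ro_mem _ (hmem g)]
    rfl
  have hirr : IsIrr (ρ.comp (R.PJ Finset.univ).subtype) := by
    refine ⟨hρ.1, ?_⟩
    have hr : Set.range (ρ.comp (R.PJ Finset.univ).subtype) = Set.range ρ := by
      ext A
      constructor
      · rintro ⟨g, rfl⟩
        exact ⟨(g : G), rfl⟩
      · rintro ⟨g, rfl⟩
        exact ⟨⟨g, hmem g⟩, rfl⟩
    rw [hr]
    exact hρ.2
  rcases (lb6 ℓ F hF G R k (ρ.comp (R.PJ Finset.univ).subtype) hirr).1 with h | ⟨φ, h⟩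
  · exfalso
    apply hsz
    simp only [hro] at h
    exact h
  · refine ⟨φ, ?_⟩
    simp only [hro] at h
    exact h

end Pool.Agent.PP.X1.H31
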